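import Mathlib
import Pool.Agent.Lib.MP_bf61d2_nt.Trim.Artin.Defs63
import Pool.Agent.Lib.MP_bf61d2_nt.Trim.LocalCurve
import Pool.Agent.Lib.MP_bf61d2_nt.Trim.Places
import Pool.Agent.Lib.MP_bf61d2_nt.Trim.Zeta.Lip

set_option autoImplicit false

/-!
RAY: edge repulsion for all twists by ray class characters (MP_bf61d2_nt): definitions.
-/

namespace NumberField
end NumberField

namespace Pool.Agent.Lib.MP_bf61d2_nt.Zeta
end Pool.Agent.Lib.MP_bf61d2_nt.Zeta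

namespace Pool.Agent.Lib.MP_bf61d2_nt.Artin.Ray

open NumberField NumberField.mixedEmbedding IsDedekindDomain

open Pool.Agent.Lib.MP_bf61d2_nt.Zeta

variable {K : Type*} [Field K] [NumberField K]

/-- A ray class character modulo `𝔪` (narrow sense), extended by zero to the ideals not prime to
`𝔪`. -/
def IsRay (𝔪 : Ideal (𝓞 K)) (ψ : Ideal (𝓞 K) →*₀ ℂ) : Prop :=
  (∀ γ : 𝓞 K, γ ≠ 0 → γ - 1 ∈ 𝔪 → (∀ φ : K →+* ℝ, 0 < φ γ) → ψ (Ideal.span {γ}) = 1) ∧
  ∀ v : HeightOneSpectrum (𝓞 K), ψ v.asIdeal = 0 ↔ 𝔪 ≤ v.asIdeal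

/-- The Dirichlet series of a function of the ideals. -/
noncomputable def LI (F : Ideal (𝓞 K) → ℂ) (s : ℂ) : ℂ :=
  ∑' I : Ideal (𝓞 K), F I * (Ideal.absNorm I : ℂ) ^ (-s)

/-- The character is trivial at the places prime to the modulus. -/
def TR (𝔪 : Ideal (𝓞 K)) (ψ : Ideal (𝓞 K) →*₀ ℂ) : Prop :=
  ∀ v : HeightOneSpectrum (𝓞 K), ¬ 𝔪 ≤ v.asIdeal → ψ v.asIdeal = 1

/-- The Dirichlet series is bounded near `1`. -/
def BD (ψ : Ideal (𝓞 K) →*₀ ℂ) : Prop :=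
  ∃ B : ℝ, ∀ y : ℝ, 0 < y → y ≤ 1 → ‖LI (ψ : Ideal (𝓞 K) → ℂ) ((1 + y : ℝ) : ℂ)‖ ≤ B

/-- The prime sum with coefficients. -/
noncomputable def CR (c : HeightOneSpectrum (𝓞 K) → ℝ) (f : HeightOneSpectrum (𝓞 K) → ℂ)
    (x u : ℝ) : ℂ :=
  SC (K := K) (1 + x) (fun v => (c v : ℂ) * (f v * ph u (nm v)))

/-- The conjugate character. -/
noncomputable def cj (ψ : Ideal (𝓞 K) →*₀ ℂ) : Ideal (𝓞 K) →*₀ ℂ :=
  (starRingEnd ℂ).toMonoidWithZeroHom.comp ψ

/-- The signs at the real places. -/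
abbrev SG (K : Type*) [Field K] := {w : InfinitePlace K // w.IsReal} → Bool

open scoped Classical in
/-- The signs of a point of the mixed space. -/
noncomputable def sgn (x : mixedSpace K) : SG K := fun w => decide (0 < x.1 w)

open scoped Classical in
/-- The function `hh` cut off to one orthant. -/
noncomputable def hS (σ : SG K) (s : ℂ) (x : mixedSpace K) : ℂ := if sgn x = σ then hh s x else 0

/-- The Euler product of the twist of `E` by a function of the places. -/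
noncomputable def LE (E : WeierstrassCurve K) (f : HeightOneSpectrum (𝓞 K) → ℂ) (s : ℂ) : ℂ :=
  ∏' v : HeightOneSpectrum (𝓞 K), (Polynomial.aeval (f v * (nm v : ℂ) ^ (-s)) (lp E v))⁻¹

end Pool.Agent.Lib.MP_bf61d2_nt.Artin.Ray
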