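import Mathlib
import Pool.Agent.Lib.MP_bf61d2_nt.Trim.Artin.Defs63
import Pool.Agent.Lib.MP_bf61d2_nt.Trim.Artin.R.DefsR
import Pool.Agent.Lib.MP_bf61d2_nt.Trim.Places
import Pool.Agent.Lib.MP_bf61d2_nt.Trim.PrimeSum
import Pool.Agent.Lib.MP_bf61d2_nt.Trim.Zeta.ClassSum
import Pool.Agent.Lib.MP_bf61d2_nt.Trim.Zeta.Lattice
import Pool.Agent.Lib.MP_bf61d2_nt.Trim.Zeta.Lip
import Pool.Agent.Lib.MP_bf61d2_nt.Trim.Zeta.Unfold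

set_option autoImplicit false

/-!
RAY: edge repulsion for all twists by ray class characters (MP_bf61d2_nt): the statements of the
modules, as propositions. Each module proves one of them, from others as hypotheses.
-/

namespace NumberField
end NumberField

namespace Pool.Agent.Lib.MP_bf61d2_nt.Zeta
end Pool.Agent.Lib.MP_bf61d2_nt.Zeta

namespace Pool.Agent.Lib.MP_bf61d2_nt.Artin.Ray

open NumberField NumberField.mixedEmbedding NumberField.Units NumberField.InfinitePlace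

open IsDedekindDomain Module

open Pool.Agent.Lib.MP_bf61d2_nt.Zeta

open scoped Classical nonZeroDivisors

universe u

variable (K : Type u) [Field K] [NumberField K]

/-- INV -/
def StINV : Prop := ∀ (𝔪 : Ideal (𝓞 K)), 𝔪 ≠ ⊥ → ∀ ψ : Ideal (𝓞 K) →*₀ ℂ, IsRay 𝔪 ψ →
  ∀ (J I I' : Ideal (𝓞 K)) (α β : 𝓞 K), α ≠ 0 → β ≠ 0 → α - β ∈ 𝔪 * J →
  (∀ φ : K →+* ℝ, 0 < φ α ↔ 0 < φ β) → Ideal.span {α} = J * I → Ideal.span {β} = J * I' →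
  ψ I = ψ I'

/-- UNF: unfolding. -/
def StUNF : Prop := ∀ F : Ideal (𝓞 K) → ℂ, (∀ I, ‖F I‖ ≤ 1) →
  ∀ (J : ClassGroup (𝓞 K) → (Ideal (𝓞 K))⁰), (∀ C, ClassGroup.mk0 (J C) = C⁻¹) →
  ∀ (ι : ClassGroup (𝓞 K) → Type u) [∀ C, Fintype (ι C)]
    (b : ∀ C, Basis (ι C) ℝ (mixedSpace K)), (∀ C, IsBasisOf (J C) (b C)) →
  ∀ W : ∀ C, (ι C → ℤ) → ℂ, (∀ C (a : ι C → ℤ) (α : 𝓞 K) (I : Ideal (𝓞 K)), α ≠ 0 →
    mixedEmbedding K (α : K) = pt (b C) a → Ideal.span {α} = (J C : Ideal (𝓞 K)) * I →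
    W C a = F I) →
  ∀ s : ℂ, 1 < s.re → LI F s =
    ∑ C, (torsionOrder K * en s (Ideal.absNorm (J C : Ideal (𝓞 K))))⁻¹ *
      ∑' a : ι C → ℤ, W C a * hh s (pt (b C) a)

/-- LIP: the Lipschitz estimate on an orthant. -/
def StLIP : Prop := ∀ c σ₀ : ℝ, 0 < c → 0 < σ₀ → ∃ C₁ C₂ : ℝ, 0 < C₁ ∧ 0 < C₂ ∧
  ∀ R : ℝ, 1 ≤ R → ∀ x y : mixedSpace K, mixedEmbedding.norm x ≠ 0 → mixedEmbedding.norm y ≠ 0 →
    ‖x - y‖ ≤ c → C₂ * R ≤ ‖x‖ → ∀ (σ : SG K) (s : ℂ), σ₀ ≤ s.re → ‖s‖ ≤ R →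
      ‖hS σ s y - hS σ s x‖ ≤ C₁ * R * ‖x‖ ^ (-(finrank ℚ K * σ₀ + 1))

/-- EUL -/
def StEUL : Prop := ∀ ψ : Ideal (𝓞 K) →*₀ ℂ, (∀ I, ‖ψ I‖ ≤ 1) →
  ∃ Λ : ℂ → ℂ, DifferentiableOn ℂ Λ {s | 1 < s.re} ∧ ∀ s : ℂ, 1 < s.re →
    Complex.exp (Λ s) = LI (ψ : Ideal (𝓞 K) → ℂ) s ∧
    ‖Λ s - SC (K := K) s.re (fun v => ψ v.asIdeal * ph s.im (nm v))‖ ≤ sqC K

end Pool.Agent.Lib.MP_bf61d2_nt.Artin.Ray
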