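import Mathlib

set_option autoImplicit false

/-!
RAY (MP_bf61d2_nt), module INV: the value of a ray class character depends only on the generator
modulo the lattice and on its signs.
-/

namespace NumberField
end NumberField

namespace Pool.Agent.Lib.MP_bf61d2_nt.Zeta
end Pool.Agent.Lib.MP_bf61d2_nt.Zeta

namespace Pool.Agent.Lib.MP_bf61d2_nt.Artin.Ray

open NumberField NumberField.mixedEmbedding NumberField.Units NumberField.InfinitePlace

open IsDedekindDomain Module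

open Pool.Agent.Lib.MP_bf61d2_nt.Zeta

open scoped Classical nonZeroDivisors

universe u

namespace Inv39

variable {K : Type u} [Field K] [NumberField K]

/-- an element prime to the modulus has a power congruent to `1` -/
lemma exists_pow {𝔪 : Ideal (𝓞 K)} (h𝔪 : 𝔪 ≠ ⊥) (γ : 𝓞 K)
    (hγ : ∀ v : HeightOneSpectrum (𝓞 K), 𝔪 ≤ v.asIdeal → γ ∉ v.asIdeal) :
    ∃ k : ℕ, 1 ≤ k ∧ γ ^ k - 1 ∈ 𝔪 := by
  have hcop : IsCoprime (Ideal.span {γ}) 𝔪 := by
    rw [Ideal.isCoprime_iff_sup_eq]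
    by_contra hne
    obtain ⟨P, hP, hle⟩ := Ideal.exists_le_maximal _ hne
    have hP0 : P ≠ ⊥ := by
      rintro rfl
      exact h𝔪 (le_bot_iff.mp (le_trans le_sup_right hle))
    exact hγ ⟨P, hP.isPrime, hP0⟩ (le_trans le_sup_right hle)
      (le_trans le_sup_left hle (Ideal.mem_span_singleton_self γ))
  have hu : IsUnit (Ideal.Quotient.mk 𝔪 γ) := by
    rw [Ideal.isCoprime_iff_exists] at hcop
    obtain ⟨i, hi, j, hj, hij⟩ := hcop
    obtain ⟨δ, rfl⟩ := Ideal.mem_span_singleton'.mp hi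
    refine IsUnit.of_mul_eq_one (Ideal.Quotient.mk 𝔪 δ) ?_
    rw [← map_mul, ← map_one (Ideal.Quotient.mk 𝔪), Ideal.Quotient.eq, ← hij]
    have : γ * δ - (δ * γ + j) = -j := by ring
    rw [this]
    exact neg_mem hj
  haveI : Finite (𝓞 K ⧸ 𝔪) := Ideal.finiteQuotientOfFreeOfNeBot 𝔪 h𝔪
  obtain ⟨w, hw⟩ := hu
  obtain ⟨k, hk, hk'⟩ := isOfFinOrder_iff_pow_eq_one.mp (isOfFinOrder_of_finite w)
  refine ⟨k, hk, ?_⟩
  rw [← Ideal.Quotient.eq, map_pow, map_one, ← hw, ← Units.val_pow_eq_pow_val, hk', Units.val_one]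

end Inv39

variable (K : Type u) [Field K] [NumberField K]

end Pool.Agent.Lib.MP_bf61d2_nt.Artin.Ray
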