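import Mathlib
import Pool.Agent.Lib.MP_bf61d2_nt.Trim.Artin.R.DefsR
import Pool.Agent.Lib.MP_bf61d2_nt.Trim.Zeta.Dilation
import Pool.Agent.Lib.MP_bf61d2_nt.Trim.Zeta.Lip

set_option autoImplicit false

/-!
RAY (MP_bf61d2_nt), module LAT: the lattice sums with periodic weights and prescribed signs at the
real places continue to a half plane to the left of `Re s = 1`, with at most a simple pole at `1`,
and are of polynomial growth there, also in the period.
-/

namespace NumberField
end NumberField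

namespace Pool.Agent.Lib.MP_bf61d2_nt.Zeta
end Pool.Agent.Lib.MP_bf61d2_nt.Zeta

namespace Pool.Agent.Lib.MP_bf61d2_nt.Artin.Z69
end Pool.Agent.Lib.MP_bf61d2_nt.Artin.Z69

namespace Pool.Agent.Lib.MP_bf61d2_nt.Artin.ZB69
end Pool.Agent.Lib.MP_bf61d2_nt.Artin.ZB69

namespace Pool.Agent.Lib.MP_bf61d2_nt.Artin.Ray
end Pool.Agent.Lib.MP_bf61d2_nt.Artin.Ray

namespace Pool.Agent.Lib.MP_bf61d2_nt.Artin.Ray.LAT49

open NumberField NumberField.mixedEmbedding NumberField.Units NumberField.InfinitePlace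

open Module Filter Topology

open Pool.Agent.Lib.MP_bf61d2_nt.Zeta

open Pool.Agent.Lib.MP_bf61d2_nt.Artin.Z69

open Pool.Agent.Lib.MP_bf61d2_nt.Artin.ZB69

open Pool.Agent.Lib.MP_bf61d2_nt.Artin.Ray

open scoped Classical nonZeroDivisors

universe u

section Basic

variable {K : Type*} [Field K] [NumberField K]

lemma hS_zero (σ : SG K) (s : ℂ) : hS σ s (0 : mixedSpace K) = 0 := by
  unfold hS
  rw [hh_zero, ite_self]

lemma norm_hS_le (σ : SG K) (s : ℂ) (x : mixedSpace K) : ‖hS σ s x‖ ≤ ‖hh s x‖ := by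
  unfold hS
  split_ifs
  · exact le_rfl
  · rw [norm_zero]; exact norm_nonneg _

omit [NumberField K] in
lemma sgn_smul {m : ℕ} (hm : m ≠ 0) (x : mixedSpace K) : sgn ((m : ℝ) • x) = sgn x := by
  have hm' : (0 : ℝ) < m := by exact_mod_cast Nat.pos_of_ne_zero hm
  funext w
  unfold sgn
  have h1 : ((m : ℝ) • x).1 w = m * x.1 w := rfl
  have h2 : 0 < ((m : ℝ) • x).1 w ↔ 0 < x.1 w := by
    rw [h1]
    exact mul_pos_iff_of_pos_left hm'
  simp only [h2]

lemma hS_smul {m : ℕ} (hm : m ≠ 0) (σ : SG K) (s : ℂ) (x : mixedSpace K) :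
    hS σ s ((m : ℝ) • x) = Zeta.fac K m s * hS σ s x := by
  unfold hS
  rw [sgn_smul hm, hh_smul hm, mul_ite, mul_zero]

lemma differentiable_hS (σ : SG K) (x : mixedSpace K) : Differentiable ℂ fun s => hS σ s x := by
  unfold hS
  split_ifs with h
  · exact differentiable_hh x
  · exact differentiable_const _

end Basic

section Sum

variable {K : Type u} [Field K] [NumberField K]

variable {ι : Type*} [Fintype ι] (b : Basis ι ℝ (mixedSpace K))

end Sum

end Pool.Agent.Lib.MP_bf61d2_nt.Artin.Ray.LAT49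

namespace Pool.Agent.Lib.MP_bf61d2_nt.Artin.Ray

open NumberField NumberField.mixedEmbedding NumberField.Units NumberField.InfinitePlace

open Module Filter Topology

open Pool.Agent.Lib.MP_bf61d2_nt.Zeta

open Pool.Agent.Lib.MP_bf61d2_nt.Artin.ZB69

open scoped Classical nonZeroDivisors

universe u

end Pool.Agent.Lib.MP_bf61d2_nt.Artin.Ray
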