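import Mathlib
import Pool.Agent.Lib.MP_bf61d2_nt.Trim.Artin.R.DefsR
import Pool.Agent.Lib.MP_bf61d2_nt.Trim.Artin.R.StmtsR
import Pool.Agent.Lib.MP_bf61d2_nt.Trim.Artin.ZA69
import Pool.Agent.Lib.MP_bf61d2_nt.Trim.Zeta.Cone
import Pool.Agent.Lib.MP_bf61d2_nt.Trim.Zeta.Dilation
import Pool.Agent.Lib.MP_bf61d2_nt.Trim.Zeta.Lip

set_option autoImplicit false

/-!
RAY (MP_bf61d2_nt), modules LIP and SHIFT: the Lipschitz estimate on an orthant, and the shifts of
the lattice sums.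
-/

namespace NumberField
end NumberField

namespace Pool.Agent.Lib.MP_bf61d2_nt.Zeta
end Pool.Agent.Lib.MP_bf61d2_nt.Zeta

namespace Pool.Agent.Lib.MP_bf61d2_nt.Artin.Ray

open NumberField NumberField.mixedEmbedding NumberField.Units NumberField.InfinitePlace

open IsDedekindDomain Module

open Pool.Agent.Lib.MP_bf61d2_nt.Zeta

open scoped Classical nonZeroDivisors

universe u

lemma hS_zero {K : Type*} [Field K] [NumberField K] (σ : SG K) (s : ℂ) :
    hS σ s (0 : mixedSpace K) = 0 := by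
  unfold hS
  rw [hh_zero, ite_self]

lemma norm_hS_le {K : Type*} [Field K] [NumberField K] (σ : SG K) (s : ℂ) (x : mixedSpace K) :
    ‖hS σ s x‖ ≤ ‖hh s x‖ := by
  unfold hS
  split_ifs
  · exact le_rfl
  · rw [norm_zero]; exact norm_nonneg _

/-- two points which are close and comparable to the norm have the same signs -/
lemma sgn_eq {K : Type*} [Field K] [NumberField K] {x y : mixedSpace K} {c m : ℝ}
    (hxy : ‖x - y‖ ≤ c) (hm : c < m) (hx : ∀ w, m ≤ normAtPlace w x) : sgn x = sgn y := by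
  funext w
  have h1 : |x.1 w - y.1 w| ≤ c := by
    have h2 : ‖(x - y).1‖ ≤ ‖x - y‖ := norm_fst_le _
    have h3 : ‖(x - y).1 w‖ ≤ ‖(x - y).1‖ := norm_le_pi_norm _ w
    have h4 : (x - y).1 w = x.1 w - y.1 w := rfl
    rw [h4, Real.norm_eq_abs] at h3
    linarith
  have h2 : m ≤ |x.1 w| := by
    have h3 := hx w.1
    rwa [normAtPlace_apply_of_isReal w.2, Real.norm_eq_abs] at h3
  have h3 : 0 < x.1 w ↔ 0 < y.1 w := by
    rw [abs_le] at h1
    rcases le_abs.mp h2 with h | h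
    · have hc : 0 ≤ c := (norm_nonneg _).trans hxy
      constructor <;> intro _ <;> linarith [h1.1, h1.2]
    · have hc : 0 ≤ c := (norm_nonneg _).trans hxy
      constructor <;> intro _ <;> linarith [h1.1, h1.2]
  unfold sgn
  simp only [h3]

/-- **RAY, module LIP.** -/
theorem stLIP_of (K : Type u) [Field K] [NumberField K] : StLIP K := by
  intro c σ₀ hc hσ
  obtain ⟨κ, hκ0, hκ1, hκ⟩ := exists_kappa K
  obtain ⟨C₁, C₂, hC₁, hC₂, hlip⟩ := ZB69.lipschitz_u K hc hσ
  refine ⟨C₁, C₂ + 8 * c / κ, hC₁, by positivity, ?_⟩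
  intro R hR x y hx hy hxy hX σ s hs1 hs2
  have hR0 : 0 < R := by linarith
  have p1 : 0 < 8 * c / κ := by positivity
  have hX2 : C₂ * R ≤ ‖x‖ := by nlinarith
  have hX3 : 8 * c / κ ≤ ‖x‖ := by nlinarith
  have hXpos : 0 < ‖x‖ := lt_of_lt_of_le p1 hX3
  have hX4 : 8 * c ≤ κ * ‖x‖ := by
    rw [div_le_iff₀ hκ0] at hX3
    linarith
  have hpos : 0 ≤ C₁ * R * ‖x‖ ^ (-(finrank ℚ K * σ₀ + 1)) := by positivity
  by_cases hP : Phi x ≠ 0 ∨ Phi y ≠ 0
  · have hcmp := comparable hκ0 hκ1 hκ (x := x) (y := y) rfl hx hy hxy hX4 hP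
    have hsg : sgn x = sgn y := by
      refine sgn_eq (c := c) (m := κ / 4 * ‖x‖) hxy ?_ (fun w => (hcmp w).1)
      linarith
    unfold hS
    rw [hsg]
    split_ifs
    · exact hlip R hR x y hx hy hxy hX2 s hs1 hs2
    · rw [sub_zero, norm_zero]
      exact hpos
  · push Not at hP
    have h1 : hh s x = 0 := by
      rw [hh, if_neg hx, hP.1, Complex.ofReal_zero, zero_mul]
    have h2 : hh s y = 0 := by
      rw [hh, if_neg hy, hP.2, Complex.ofReal_zero, zero_mul]
    have h3 : hS σ s x = 0 := by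
      unfold hS
      rw [h1, ite_self]
    have h4 : hS σ s y = 0 := by
      unfold hS
      rw [h2, ite_self]
    rw [h3, h4, sub_zero, norm_zero]
    exact hpos

end Pool.Agent.Lib.MP_bf61d2_nt.Artin.Ray
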