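import Mathlib
import Pool.Agent.Lib.MP_bf61d2_nt.Trim.Artin.R.DefsR
import Pool.Agent.Lib.MP_bf61d2_nt.Trim.Zeta.Lattice

set_option autoImplicit false

/-!
RAY (MP_bf61d2_nt), module PER: the weights of the lattice sums are periodic.
-/

namespace NumberField
end NumberField

namespace Pool.Agent.Lib.MP_bf61d2_nt.Zeta
end Pool.Agent.Lib.MP_bf61d2_nt.Zeta

namespace Pool.Agent.Lib.MP_bf61d2_nt.Artin.Ray

open NumberField NumberField.mixedEmbedding NumberField.Units NumberField.InfinitePlace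

open IsDedekindDomain Module

open Pool.Agent.Lib.MP_bf61d2_nt.Zeta

open scoped Classical nonZeroDivisors

universe u

namespace Per39

variable {K : Type u} [Field K] [NumberField K]

/-- every real embedding is a coordinate of the mixed embedding -/
lemma exists_real_place (φ : K →+* ℝ) :
    ∃ w : {w : InfinitePlace K // w.IsReal}, ∀ x : K, (mixedEmbedding K x).1 w = φ x := by
  obtain ⟨χ, hχ⟩ : ∃ χ : K →+* ℂ, χ = Complex.ofRealHom.comp φ := ⟨_, rfl⟩
  have hreal : ComplexEmbedding.IsReal χ := by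
    rw [ComplexEmbedding.isReal_iff]
    ext x
    rw [ComplexEmbedding.conjugate_coe_eq, hχ]
    simp
  have hw : (InfinitePlace.mk χ).IsReal := isReal_mk_iff.mpr hreal
  refine ⟨⟨InfinitePlace.mk χ, hw⟩, fun x => ?_⟩
  rw [mixedEmbedding_apply_isReal]
  have h1 := embedding_of_isReal_apply hw x
  rw [embedding_mk_eq_of_isReal hreal] at h1
  have h2 : χ x = ((φ x : ℝ) : ℂ) := by rw [hχ]; rfl
  exact Complex.ofReal_injective (h1.trans h2)

/-- equal signs -/
lemma sgn_iff {α β : 𝓞 K} (h : sgn (mixedEmbedding K (α : K)) = sgn (mixedEmbedding K (β : K)))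
    (φ : K →+* ℝ) : 0 < φ α ↔ 0 < φ β := by
  obtain ⟨w, hw⟩ := exists_real_place φ
  have h1 := congrFun h w
  unfold sgn at h1
  rw [hw, hw] at h1
  exact decide_eq_decide.mp h1

lemma pt_add39 {ι : Type u} [Fintype ι] (b : Basis ι ℝ (mixedSpace K)) (a T : ι → ℤ) :
    pt b (a + T) = pt b a + pt b T := by
  unfold pt
  rw [← Finset.sum_add_distrib]
  refine Finset.sum_congr rfl fun i _ => ?_
  rw [Pi.add_apply]
  push_cast
  rw [add_smul]

/-- admissible representatives -/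
def Rep (𝔪 : Ideal (𝓞 K)) (J : Ideal (𝓞 K)) {ι : Type u} [Fintype ι]
    (b : Basis ι ℝ (mixedSpace K)) (σ : SG K) (a : ι → ℤ) (α : 𝓞 K) (I : Ideal (𝓞 K)) : Prop :=
  α ≠ 0 ∧ Ideal.span {α} = J * I ∧ sgn (mixedEmbedding K (α : K)) = σ ∧
    ∃ τ ∈ 𝔪 * J, mixedEmbedding K (τ : K) = mixedEmbedding K (α : K) - pt b a

lemma rep_shift {𝔪 J : Ideal (𝓞 K)} {ι : Type u} [Fintype ι] {b : Basis ι ℝ (mixedSpace K)}
    {σ : SG K} {a T : ι → ℤ} {α : 𝓞 K} {I : Ideal (𝓞 K)} {τ : 𝓞 K} (hτ : τ ∈ 𝔪 * J)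
    (hT : mixedEmbedding K (τ : K) = pt b T) :
    Rep 𝔪 J b σ (a + T) α I ↔ Rep 𝔪 J b σ a α I := by
  constructor
  · rintro ⟨h1, h2, h3, ρ, hρ, hρ'⟩
    refine ⟨h1, h2, h3, ρ + τ, add_mem hρ hτ, ?_⟩
    push_cast
    rw [map_add, hρ', hT, pt_add39]
    abel
  · rintro ⟨h1, h2, h3, ρ, hρ, hρ'⟩
    refine ⟨h1, h2, h3, ρ - τ, sub_mem hρ hτ, ?_⟩
    push_cast
    rw [map_sub, hρ', hT, pt_add39]
    abel

end Per39

variable (K : Type u) [Field K] [NumberField K]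

end Pool.Agent.Lib.MP_bf61d2_nt.Artin.Ray
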