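import Mathlib
import Pool.Agent.Lib.MP_bf61d2_nt.Trim.Artin.R.DefsR
import Pool.Agent.Lib.MP_bf61d2_nt.Trim.Places
import Pool.Agent.Lib.MP_bf61d2_nt.Trim.Zeta.Lattice
import Pool.Agent.Lib.MP_bf61d2_nt.Trim.Zeta.Lip
import Pool.Agent.Lib.MP_bf61d2_nt.Trim.Zeta.Unfold

set_option autoImplicit false

/-!
RAY (MP_bf61d2_nt), module RES: a ray class character which is not trivial has no pole at `1`.
-/

namespace NumberField
end NumberField

namespace Pool.Agent.Lib.MP_bf61d2_nt.Zeta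
end Pool.Agent.Lib.MP_bf61d2_nt.Zeta

namespace Pool.Agent.Lib.MP_bf61d2_nt.Artin.Ray.RES84
end Pool.Agent.Lib.MP_bf61d2_nt.Artin.Ray.RES84

namespace Pool.Agent.Lib.MP_bf61d2_nt.Artin.Ray

open NumberField NumberField.mixedEmbedding NumberField.Units NumberField.InfinitePlace

open IsDedekindDomain Module

open Pool.Agent.Lib.MP_bf61d2_nt.Zeta

open scoped Classical nonZeroDivisors

universe u

variable {K : Type u} [Field K] [NumberField K]

namespace RES84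

section Sum

variable {ι : Type u} [Fintype ι] (b : Basis ι ℝ (mixedSpace K))

lemma norm_hS_le (σ : SG K) (s : ℂ) (x : mixedSpace K) : ‖hS σ s x‖ ≤ ‖hh s x‖ := by
  unfold hS
  split_ifs
  · exact le_rfl
  · rw [norm_zero]; exact norm_nonneg _

end Sum

/-! ### The lattice of an ideal -/

section Lat

variable {ι : Type u} [Fintype ι] {b : Basis ι ℝ (mixedSpace K)} {J : (Ideal (𝓞 K))⁰}

lemma exists_hom (hb : IsBasisOf J b) : ∃ f : (ι → ℤ) →+ 𝓞 K,
    (∀ a, mixedEmbedding K (f a : K) = pt b a) ∧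
    f.range = Submodule.toAddSubgroup (J : Ideal (𝓞 K)) := by
  have hinj : Function.Injective fun α : 𝓞 K => mixedEmbedding K (α : K) := fun α β h =>
    RingOfIntegers.coe_injective (mixedEmbedding_injective K h)
  choose g hg1 hg2 using fun a : ι → ℤ => (hb (pt b a)).mp ⟨a, rfl⟩
  refine ⟨⟨⟨g, ?_⟩, ?_⟩, hg2, ?_⟩
  · apply hinj
    simp only
    rw [hg2, pt_zero, show ((0 : 𝓞 K) : K) = 0 from map_zero _, map_zero]
  · intro a a'
    apply hinj
    simp only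
    rw [hg2, pt_add, show ((g a + g a' : 𝓞 K) : K) = g a + g a' from map_add _ _ _, map_add,
      hg2, hg2]
  · ext α
    rw [AddMonoidHom.mem_range]
    constructor
    · rintro ⟨a, rfl⟩
      exact hg1 a
    · intro hα
      obtain ⟨a, ha⟩ := (hb (mixedEmbedding K (α : K))).mpr ⟨α, hα, rfl⟩
      refine ⟨a, hinj ?_⟩
      show mixedEmbedding K (g a : K) = mixedEmbedding K (α : K)
      rw [hg2, ha]

/-- The sublattice of `v₀ J`: index and representatives. -/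
lemma exists_sub (hb : IsBasisOf J b) {𝔪 : Ideal (𝓞 K)} {v : HeightOneSpectrum (𝓞 K)}
    (hv : ¬ 𝔪 ≤ v.asIdeal) : ∃ (Λ : AddSubgroup (ι → ℤ)) (_ : Fintype ((ι → ℤ) ⧸ Λ))
      (T : (ι → ℤ) ⧸ Λ → (ι → ℤ)), Fintype.card ((ι → ℤ) ⧸ Λ) = nm v ∧
      (∀ c, (QuotientAddGroup.mk (T c) : (ι → ℤ) ⧸ Λ) = c) ∧
      (∀ c, ∃ τ ∈ 𝔪 * (J : Ideal (𝓞 K)), mixedEmbedding K (τ : K) = pt b (T c)) ∧
      ∀ a, a ∈ Λ ↔ ∃ α ∈ v.asIdeal * (J : Ideal (𝓞 K)), mixedEmbedding K (α : K) = pt b a := by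
  have hinj : Function.Injective fun α : 𝓞 K => mixedEmbedding K (α : K) := fun α β h =>
    RingOfIntegers.coe_injective (mixedEmbedding_injective K h)
  obtain ⟨f, hf1, hf2⟩ := exists_hom hb
  have hfJ : ∀ a, f a ∈ (J : Ideal (𝓞 K)) := fun a => by
    have : f a ∈ f.range := ⟨a, rfl⟩
    rw [hf2] at this
    exact this
  set Λ : AddSubgroup (ι → ℤ) :=
    AddSubgroup.comap f (Submodule.toAddSubgroup (v.asIdeal * (J : Ideal (𝓞 K)))) with hΛ
  have hmem : ∀ a, a ∈ Λ ↔ f a ∈ v.asIdeal * (J : Ideal (𝓞 K)) := fun a => Iff.rfl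
  have hJ0 : Ideal.absNorm (J : Ideal (𝓞 K)) ≠ 0 := Ideal.absNorm_ne_zero_of_nonZeroDivisors J
  have hle : v.asIdeal * (J : Ideal (𝓞 K)) ≤ J := Ideal.mul_le_right
  have hidx : Λ.index = nm v := by
    have h1 : Λ.index = (Submodule.toAddSubgroup (v.asIdeal * (J : Ideal (𝓞 K)))).relIndex
        (Submodule.toAddSubgroup (J : Ideal (𝓞 K))) := by
      rw [hΛ, AddSubgroup.index_comap, hf2]
    have h2 := AddSubgroup.relIndex_mul_index (H := Submodule.toAddSubgroup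
      (v.asIdeal * (J : Ideal (𝓞 K)))) (K := Submodule.toAddSubgroup (J : Ideal (𝓞 K))) hle
    have h3 : ∀ I : Ideal (𝓞 K), (Submodule.toAddSubgroup I).index = Ideal.absNorm I := fun I => rfl
    rw [h3, h3, map_mul, ← h1] at h2
    exact Nat.eq_of_mul_eq_mul_right (Nat.pos_of_ne_zero hJ0) h2
  have hnm : nm v ≠ 0 := by
    have := one_lt_nm v
    omega
  have hfi : Λ.FiniteIndex := ⟨by rw [hidx]; exact hnm⟩
  have hfin : Finite ((ι → ℤ) ⧸ Λ) := AddSubgroup.finite_quotient_of_finiteIndex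
  set F : Fintype ((ι → ℤ) ⧸ Λ) := Fintype.ofFinite _ with hF
  have hsup : v.asIdeal ⊔ 𝔪 = ⊤ := by
    have hmax := v.isMaximal
    refine hmax.1.2 _ (lt_of_le_of_ne le_sup_left fun h => hv ?_)
    rw [h]
    exact le_sup_right
  have hrep : ∀ c : (ι → ℤ) ⧸ Λ, ∃ T : ι → ℤ, (QuotientAddGroup.mk T : (ι → ℤ) ⧸ Λ) = c ∧
      f T ∈ 𝔪 * (J : Ideal (𝓞 K)) := by
    intro c
    obtain ⟨a, rfl⟩ := QuotientAddGroup.mk_surjective c
    have h1 : f a ∈ v.asIdeal * (J : Ideal (𝓞 K)) ⊔ 𝔪 * (J : Ideal (𝓞 K)) := by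
      rw [← Ideal.sup_mul, hsup, Ideal.top_mul]
      exact hfJ a
    obtain ⟨α, hα, τ, hτ, h2⟩ := Submodule.mem_sup.mp h1
    have h3 : τ ∈ f.range := by
      rw [hf2]
      exact Ideal.mul_le_right hτ
    obtain ⟨T, rfl⟩ := h3
    refine ⟨T, ?_, hτ⟩
    rw [QuotientAddGroup.eq, hmem, map_add, map_neg, ← h2]
    have : -f T + (α + f T) = α := by ring
    rw [this]
    exact hα
  choose T hT1 hT2 using hrep
  refine ⟨Λ, F, T, ?_, hT1, fun c => ⟨f (T c), hT2 c, hf1 _⟩, fun a => ?_⟩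
  · rw [← hidx, AddSubgroup.index_eq_card, Nat.card_eq_fintype_card]
  · rw [hmem]
    constructor
    · intro h
      exact ⟨f a, h, hf1 a⟩
    · rintro ⟨α, hα, h⟩
      have : α = f a := hinj (by
        simp only
        rw [h, hf1])
      rwa [← this]

end Lat

/-! ### The ideals divisible by a place -/

lemma LI_dvd (ψ : Ideal (𝓞 K) →*₀ ℂ) (v : HeightOneSpectrum (𝓞 K)) (s : ℂ) :
    LI (fun I => if I ≤ v.asIdeal then ψ I else 0) s =
      ψ v.asIdeal * (nm v : ℂ) ^ (-s) * LI (ψ : Ideal (𝓞 K) → ℂ) s := by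
  have hinj : Function.Injective fun I : Ideal (𝓞 K) => v.asIdeal * I :=
    fun I I' h => mul_left_cancel₀ v.ne_bot h
  have hsup : Function.support (fun I : Ideal (𝓞 K) => (if I ≤ v.asIdeal then ψ I else 0) *
      (Ideal.absNorm I : ℂ) ^ (-s)) ⊆ Set.range fun I : Ideal (𝓞 K) => v.asIdeal * I := by
    intro I hI
    rw [Function.mem_support] at hI
    have h1 : I ≤ v.asIdeal := by
      by_contra h
      exact hI (by rw [if_neg h, zero_mul])
    obtain ⟨I', rfl⟩ := Ideal.dvd_iff_le.mpr h1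
    exact ⟨I', rfl⟩
  rw [LI, LI, ← tsum_mul_left, ← hinj.tsum_eq hsup]
  refine tsum_congr fun I => ?_
  rw [if_pos Ideal.mul_le_left, map_mul, map_mul, Nat.cast_mul,
    Complex.natCast_mul_natCast_cpow, nm]
  ring

lemma exists_low {q : ℕ} (hq : 1 < q) {z : ℂ} (hz : ‖z‖ ≤ 1) (hz1 : z ≠ 1) :
    ∃ c : ℝ, 0 < c ∧ ∀ x : ℝ, 0 < x → x ≤ 1 →
      c ≤ ‖1 - (q : ℂ) * (z * (q : ℂ) ^ (-((1 + x : ℝ) : ℂ)))‖ := by
  have hq0 : (q : ℂ) ≠ 0 := by
    have : q ≠ 0 := by omega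
    exact_mod_cast this
  have hlq : 0 < Real.log q := Real.log_pos (by exact_mod_cast hq)
  set h : ℝ → ℝ := fun x => ‖1 - z * Complex.exp ((-(x * Real.log q) : ℝ) : ℂ)‖ with hh
  have hc : Continuous h := by
    rw [hh]
    fun_prop
  obtain ⟨x₀, hx₀, hmin⟩ := isCompact_Icc.exists_isMinOn (s := Set.Icc (0 : ℝ) 1)
    ⟨0, by simp⟩ hc.continuousOn
  refine ⟨h x₀, ?_, fun x hx hx1 => ?_⟩
  · rw [hh]
    simp only
    rw [norm_pos_iff, sub_ne_zero]
    intro h1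
    have h2 : ‖z * Complex.exp ((-(x₀ * Real.log q) : ℝ) : ℂ)‖ = 1 := by rw [← h1, norm_one]
    rw [norm_mul, Complex.norm_exp, Complex.ofReal_re] at h2
    rcases eq_or_lt_of_le hx₀.1 with h3 | h3
    · rw [← h3, zero_mul, neg_zero, Complex.ofReal_zero, Complex.exp_zero, mul_one] at h1
      exact hz1 h1.symm
    · have h4 : Real.exp (-(x₀ * Real.log q)) < 1 := by
        rw [Real.exp_lt_one_iff]
        have := mul_pos h3 hlq
        linarith
      have h5 := Real.exp_pos (-(x₀ * Real.log q))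
      nlinarith [norm_nonneg z]
  · have h1 := hmin (show x ∈ Set.Icc (0 : ℝ) 1 from ⟨hx.le, hx1⟩)
    refine le_trans h1 (le_of_eq ?_)
    rw [hh]
    simp only
    congr 2
    rw [Complex.cpow_def_of_ne_zero hq0, ← Complex.natCast_log]
    have e : Complex.exp (((Real.log q : ℝ) : ℂ) * -((1 + x : ℝ) : ℂ)) =
        (q : ℂ)⁻¹ * Complex.exp ((-(x * Real.log q) : ℝ) : ℂ) := by
      have e1 : (q : ℂ)⁻¹ = Complex.exp (-((Real.log q : ℝ) : ℂ)) := by
        rw [Complex.exp_neg, Complex.natCast_log, Complex.exp_log hq0]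
      rw [e1, ← Complex.exp_add]
      congr 1
      push_cast
      ring
    rw [e]
    field_simp

end RES84

open RES84

end Pool.Agent.Lib.MP_bf61d2_nt.Artin.Ray
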