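import Mathlib
import Pool.Agent.Lib.MP_bf61d2_nt.Trim.Analytic
import Pool.Agent.Lib.MP_bf61d2_nt.Trim.Artin.T.LTX84
import Pool.Agent.Lib.MP_bf61d2_nt.Trim.Local
import Pool.Agent.Lib.MP_bf61d2_nt.Trim.LocalCurve
import Pool.Agent.Lib.MP_bf61d2_nt.Trim.Places

set_option autoImplicit false

/-!
RAY (MP_bf61d2_nt), module LOGR: the logarithm of the Euler product of a twist of `E`.
-/

namespace NumberField
end NumberField

namespace Pool.Agent.Lib.MP_bf61d2_nt.Artin.Ray

open NumberField IsDedekindDomain Filter Topology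

universe u

variable {K : Type u} [Field K] [NumberField K]

namespace LOGR84

lemma aeval_lp (W : WeierstrassCurve K) (v : HeightOneSpectrum (𝓞 K)) (ω s : ℂ) :
    Polynomial.aeval (ω * (nm v : ℂ) ^ (-s)) (lp W v) = 1 - LTX84.zw W v ω s := by
  conv_lhs => rw [(lp_eq W v).1]
  rw [quad, LTX84.zw]
  simp only [map_add, map_sub, map_mul, map_one, map_pow, Polynomial.aeval_X, eq_intCast,
    map_intCast]
  ring

/-- The Euler product as an exponential. -/
theorem hasProd (W : WeierstrassCurve K) {f : HeightOneSpectrum (𝓞 K) → ℂ} (hf : ∀ v, ‖f v‖ ≤ 1)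
    {s : ℂ} (hs : 3 / 2 < s.re) :
    HasProd (fun v : HeightOneSpectrum (𝓞 K) => (Polynomial.aeval
      (f v * (nm v : ℂ) ^ (-s)) (lp W v))⁻¹)
      (Complex.exp (∑' v : HeightOneSpectrum (𝓞 K), -Complex.log (1 - LTX84.zw W v (f v) s))) := by
  have hsl : Summable fun v : HeightOneSpectrum (𝓞 K) =>
      -Complex.log (1 - LTX84.zw W v (f v) s) :=
    Summable.of_norm_bounded ((summable_xi W hs).mul_left 14) fun v =>
      LTX84.norm_lam_le W v (hf v) hs.le
  have h := hsl.hasSum.cexp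
  have e : (fun v : HeightOneSpectrum (𝓞 K) => (Polynomial.aeval
      (f v * (nm v : ℂ) ^ (-s)) (lp W v))⁻¹) =
      Complex.exp ∘ fun v : HeightOneSpectrum (𝓞 K) => -Complex.log (1 - LTX84.zw W v (f v) s) := by
    funext v
    have h3 : ‖LTX84.zw W v (f v) s‖ ≤ 24 / 25 :=
      (LTX84.norm_zw_le W v (hf v) s).trans (xi_le W v hs.le)
    have hne : 1 - LTX84.zw W v (f v) s ≠ 0 := by
      intro h
      have : ‖(1 : ℂ)‖ = ‖LTX84.zw W v (f v) s‖ := by rw [sub_eq_zero.mp h]
      rw [norm_one] at this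
      linarith
    rw [Function.comp_apply, aeval_lp, Complex.exp_neg, Complex.exp_log hne]
  rw [e]
  exact h

end LOGR84

end Pool.Agent.Lib.MP_bf61d2_nt.Artin.Ray
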