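import Mathlib
import Pool.Agent.Lib.MP_bf61d2_nt.Trim.Artin.Defs63
import Pool.Agent.Lib.MP_bf61d2_nt.Trim.Artin.R.DefsR
import Pool.Agent.Lib.MP_bf61d2_nt.Trim.Artin.R.StmtsR
import Pool.Agent.Lib.MP_bf61d2_nt.Trim.Edge.PlaceSum
import Pool.Agent.Lib.MP_bf61d2_nt.Trim.Places
import Pool.Agent.Lib.MP_bf61d2_nt.Trim.PrimeSum
import Pool.Agent.Lib.MP_bf61d2_nt.Trim.Zeta.Nonvanish

set_option autoImplicit false

/-!
RAY (MP_bf61d2_nt), module EUL: a holomorphic logarithm of the Dirichlet series of a completely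
multiplicative function of the ideals, on the half plane.
-/

namespace NumberField
end NumberField

namespace Pool.Agent.Lib.MP_bf61d2_nt.Zeta
end Pool.Agent.Lib.MP_bf61d2_nt.Zeta

namespace Pool.Agent.Lib.MP_bf61d2_nt.Perm
end Pool.Agent.Lib.MP_bf61d2_nt.Perm

namespace Pool.Agent.Lib.MP_bf61d2_nt.Edge
end Pool.Agent.Lib.MP_bf61d2_nt.Edge

namespace Pool.Agent.Lib.MP_bf61d2_nt.Artin
end Pool.Agent.Lib.MP_bf61d2_nt.Artin

namespace Pool.Agent.Lib.MP_bf61d2_nt.Artin.Ray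

open NumberField IsDedekindDomain Filter Topology

open Pool.Agent.Lib.MP_bf61d2_nt.Zeta

open Pool.Agent.Lib.MP_bf61d2_nt.Perm

open Pool.Agent.Lib.MP_bf61d2_nt.Edge

open Pool.Agent.Lib.MP_bf61d2_nt.Artin

namespace E52

section euler

variable {K : Type*} [Field K] [NumberField K]

/-- The summand of the Dirichlet series of `ψ`. -/
noncomputable def sm (ψ : Ideal (𝓞 K) →*₀ ℂ) (s : ℂ) (I : Ideal (𝓞 K)) : ℂ :=
  ψ I * (Ideal.absNorm I : ℂ) ^ (-s)

lemma sm_zero (ψ : Ideal (𝓞 K) →*₀ ℂ) (s : ℂ) : sm ψ s 0 = 0 := by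
  rw [sm, map_zero, zero_mul]

lemma sm_one (ψ : Ideal (𝓞 K) →*₀ ℂ) (s : ℂ) : sm ψ s 1 = 1 := by
  rw [sm, map_one, map_one, Nat.cast_one, Complex.one_cpow, mul_one]

lemma sm_mul (ψ : Ideal (𝓞 K) →*₀ ℂ) (s : ℂ) (I J : Ideal (𝓞 K)) :
    sm ψ s (I * J) = sm ψ s I * sm ψ s J := by
  rw [sm, sm, sm, map_mul, map_mul, Nat.cast_mul]
  have h : ((Ideal.absNorm I : ℂ) * (Ideal.absNorm J : ℂ)) ^ (-s) =
      (Ideal.absNorm I : ℂ) ^ (-s) * (Ideal.absNorm J : ℂ) ^ (-s) := by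
    have := Complex.mul_cpow_ofReal_nonneg (a := (Ideal.absNorm I : ℝ))
      (b := (Ideal.absNorm J : ℝ)) (Nat.cast_nonneg _) (Nat.cast_nonneg _) (-s)
    simpa using this
  rw [h]
  ring

/-- The summand, as a homomorphism. -/
noncomputable def smh (ψ : Ideal (𝓞 K) →*₀ ℂ) (s : ℂ) : Ideal (𝓞 K) →* ℂ where
  toFun := sm ψ s
  map_one' := sm_one ψ s
  map_mul' := sm_mul ψ s

lemma norm_sm_le {ψ : Ideal (𝓞 K) →*₀ ℂ} (hψ : ∀ I, ‖ψ I‖ ≤ 1) {s : ℂ} (hs : 1 < s.re)
    (I : Ideal (𝓞 K)) : ‖sm ψ s I‖ ≤ (Ideal.absNorm I : ℝ) ^ (-s.re) := by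
  rw [sm, norm_mul, Zeta.norm_term hs]
  exact mul_le_of_le_one_left (by positivity) (hψ I)

lemma summable_sm {ψ : Ideal (𝓞 K) →*₀ ℂ} (hψ : ∀ I, ‖ψ I‖ ≤ 1) {s : ℂ} (hs : 1 < s.re) :
    Summable fun I : Ideal (𝓞 K) => sm ψ s I :=
  Summable.of_norm_bounded (Zeta.summable_ideals (K := K) hs) fun I => norm_sm_le hψ hs I

lemma norm_sm_lt {ψ : Ideal (𝓞 K) →*₀ ℂ} (hψ : ∀ I, ‖ψ I‖ ≤ 1) {s : ℂ} (hs : 1 < s.re)
    (v : HeightOneSpectrum (𝓞 K)) : ‖sm ψ s v.asIdeal‖ < 1 := by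
  refine (norm_sm_le hψ hs _).trans_lt ?_
  exact Real.rpow_lt_one_of_one_lt_of_neg (by exact_mod_cast one_lt_nm v) (by linarith)

lemma prod_geom_sm (ψ : Ideal (𝓞 K) →*₀ ℂ) (s : ℂ) (S : Finset (HeightOneSpectrum (𝓞 K)))
    (M : ℕ) [DecidableEq (Ideal (𝓞 K))] [DecidableEq S] :
    ∏ i : S, ∑ k ∈ Finset.range M, (sm ψ s i.1.asIdeal) ^ k =
      ∑ I ∈ (Fintype.piFinset (fun _ : S => Finset.range M)).image (idl S), sm ψ s I := by
  rw [Finset.prod_univ_sum]
  rw [Finset.sum_image (fun a _ b _ h => idl_injective S h)]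
  refine Finset.sum_congr rfl fun e _ => ?_
  change _ = smh ψ s (idl S e)
  rw [idl, map_prod]
  simp only [map_pow]
  rfl

/-- Euler product for a completely multiplicative function of the ideals. -/
theorem tendsto_euler_sm {ψ : Ideal (𝓞 K) →*₀ ℂ} (hψ : ∀ I, ‖ψ I‖ ≤ 1) {s : ℂ}
    (hs : 1 < s.re) :
    Tendsto (fun S : Finset (HeightOneSpectrum (𝓞 K)) => ∏ v ∈ S, (1 - sm ψ s v.asIdeal)⁻¹) atTop
      (𝓝 (∑' I : Ideal (𝓞 K), sm ψ s I)) := by
  classical
  have hZ := (summable_sm hψ hs).hasSum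
  rw [Metric.tendsto_atTop]
  intro ε hε
  have hZ' : Tendsto (fun T : Finset (Ideal (𝓞 K)) => ∑ I ∈ T, sm ψ s I) atTop
      (𝓝 (∑' I : Ideal (𝓞 K), sm ψ s I)) := hZ
  rw [Metric.tendsto_atTop] at hZ'
  obtain ⟨F, hF⟩ := hZ' (ε / 2) (by linarith)
  have hc : ∀ I : Ideal (𝓞 K), ∃ S₀ : Finset (HeightOneSpectrum (𝓞 K)), I ≠ 0 →
      ∀ S : Finset (HeightOneSpectrum (𝓞 K)), S₀ ⊆ S → ∃ e : S → ℕ, idl S e = I := by
    intro I
    by_cases hI : I = 0
    · exact ⟨∅, fun h => absurd hI h⟩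
    · obtain ⟨S₀, h⟩ := Zeta.exists_idl hI
      exact ⟨S₀, fun _ => h⟩
  choose S₀ hS₀ using hc
  refine ⟨F.biUnion S₀, fun S hS => ?_⟩
  have hS' : ∀ I ∈ F, I ≠ 0 → ∃ e : S → ℕ, idl S e = I := fun I hI hI0 =>
    hS₀ I hI0 S ((Finset.subset_biUnion_of_mem S₀ hI).trans hS)
  have hev : ∀ᶠ M : ℕ in atTop, ∀ I ∈ F, I ≠ 0 →
      I ∈ (Fintype.piFinset (fun _ : S => Finset.range M)).image (idl S) := by
    rw [Filter.eventually_all_finset]
    intro I hI
    by_cases hI0 : I = 0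
    · exact Eventually.of_forall fun M h => absurd hI0 h
    · obtain ⟨e, he⟩ := hS' I hI hI0
      filter_upwards [eventually_ge_atTop (Finset.univ.sup e + 1)] with M hM _
      refine Finset.mem_image.mpr ⟨e, ?_, he⟩
      rw [Fintype.mem_piFinset]
      intro i
      rw [Finset.mem_range]
      have := Finset.le_sup (f := e) (Finset.mem_univ i)
      omega
  have hlim : Tendsto (fun M : ℕ => ∏ i : S, ∑ k ∈ Finset.range M, (sm ψ s i.1.asIdeal) ^ k) atTop
      (𝓝 (∏ i : S, (1 - sm ψ s i.1.asIdeal)⁻¹)) :=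
    tendsto_finsetProd _ fun i _ =>
      (hasSum_geometric_of_norm_lt_one (norm_sm_lt hψ hs i.1)).tendsto_sum_nat
  rw [← Finset.prod_coe_sort]
  refine lt_of_le_of_lt ?_ (half_lt_self hε)
  refine le_of_tendsto (hlim.dist tendsto_const_nhds) ?_
  filter_upwards [hev] with M hM
  rw [prod_geom_sm]
  rw [← Finset.sum_insert_zero (a := (0 : Ideal (𝓞 K))) (sm_zero ψ s)]
  refine (hF _ ?_).le
  intro I hI
  rw [Finset.mem_insert]
  by_cases hI0 : I = 0
  · exact Or.inl hI0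
  · exact Or.inr (hM I hI hI0)

end euler

end E52

universe u

/-- EUL: a logarithm on the half plane. -/
theorem stEUL_of (K : Type u) [Field K] [NumberField K] : StEUL K := by
  classical
  intro ψ hψ
  -- the local terms
  obtain ⟨z, hz⟩ : ∃ z : HeightOneSpectrum (𝓞 K) → ℂ → ℂ,
      z = fun (v : HeightOneSpectrum (𝓞 K)) (s : ℂ) =>
        ψ v.asIdeal * ((nm v : ℕ) : ℂ) ^ (-s) := ⟨_, rfl⟩
  have hzn : ∀ v, ∀ s : ℂ, 1 < s.re → ‖z v s‖ ≤ wp s.re v := by
    intro v s hs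
    rw [hz]
    simp only
    rw [norm_mul, Zeta.norm_term hs]
    exact mul_le_of_le_one_left (by positivity) (hψ _)
  have hzh : ∀ v, ∀ s : ℂ, 1 < s.re → ‖z v s‖ ≤ 1 / 2 := fun v s hs =>
    (hzn v s hs).trans (wp_le_half hs.le v)
  have hneg : ∀ v, ∀ s : ℂ, 1 < s.re → ‖-z v s‖ ≤ 1 / 2 := fun v s hs => by
    rw [norm_neg]
    exact hzh v s hs
  have hlogn : ∀ v, ∀ s : ℂ, 1 < s.re → ‖-Complex.log (1 - z v s)‖ ≤ 2 * wp s.re v := by
    intro v s hs
    rw [norm_neg, sub_eq_add_neg]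
    refine (Complex.norm_log_one_add_half_le_self (hneg v s hs)).trans ?_
    rw [norm_neg]
    have := hzn v s hs
    have := norm_nonneg (z v s)
    linarith
  have hslit : ∀ v, ∀ s : ℂ, 1 < s.re → 1 - z v s ∈ Complex.slitPlane := by
    intro v s hs
    rw [sub_eq_add_neg]
    exact Complex.mem_slitPlane_of_norm_lt_one (lt_of_le_of_lt (hneg v s hs) (by norm_num))
  have hdiff : ∀ v, Differentiable ℂ (z v) := by
    intro v
    rw [hz]
    have h0 : (nm v : ℂ) ≠ 0 := by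
      have := nm_pos' v
      exact_mod_cast this.ne'
    exact (differentiable_id.neg.const_cpow (Or.inl h0)).const_mul _
  have hsum : ∀ s : ℂ, 1 < s.re → Summable fun v => -Complex.log (1 - z v s) := fun s hs =>
    Summable.of_norm_bounded ((summable_wp (K := K) hs).mul_left 2) fun v => hlogn v s hs
  refine ⟨fun s => ∑' v, -Complex.log (1 - z v s), ?_, fun s hs => ⟨?_, ?_⟩⟩
  · -- differentiability
    intro s hs
    have hs' : 1 < s.re := hs
    obtain ⟨σ₀, h1, h2⟩ := exists_between hs'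
    have hopen : IsOpen {s : ℂ | σ₀ < s.re} := isOpen_lt continuous_const Complex.continuous_re
    have h3 : DifferentiableOn ℂ (fun s => ∑' v, -Complex.log (1 - z v s)) {s : ℂ | σ₀ < s.re} := by
      refine Complex.differentiableOn_tsum_of_summable_norm (u := fun v => 2 * wp σ₀ v)
        ((summable_wp (K := K) h1).mul_left 2) (fun v => ?_) hopen (fun v w hw => ?_)
      · intro w hw
        have hw' : σ₀ < w.re := hw
        have h4 : DifferentiableAt ℂ (fun s => Complex.log (1 - z v s)) w :=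
          ((differentiableAt_const _).sub (hdiff v w)).clog (hslit v w (h1.trans hw'))
        exact h4.neg.differentiableWithinAt
      · have hw' : σ₀ < w.re := hw
        refine (hlogn v w (h1.trans hw')).trans ?_
        refine mul_le_mul_of_nonneg_left ?_ (by norm_num)
        exact Real.rpow_le_rpow_of_exponent_le (by exact_mod_cast (one_lt_nm v).le) (by linarith)
    exact (h3.differentiableAt (hopen.mem_nhds h2)).differentiableWithinAt
  · -- the exponential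
    have h1 := E52.tendsto_euler_sm hψ hs
    have h2 : Tendsto (fun S : Finset (HeightOneSpectrum (𝓞 K)) =>
        Complex.exp (∑ v ∈ S, -Complex.log (1 - z v s))) atTop
        (𝓝 (Complex.exp (∑' v, -Complex.log (1 - z v s)))) :=
      (Complex.continuous_exp.tendsto _).comp (hsum s hs).hasSum
    refine tendsto_nhds_unique h2 (h1.congr fun S => ?_)
    rw [Complex.exp_sum]
    refine Finset.prod_congr rfl fun v _ => ?_
    have h3 : 1 - z v s ≠ 0 := Complex.slitPlane_ne_zero (hslit v s hs)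
    rw [Complex.exp_neg, Complex.exp_log h3, hz]
    rfl
  · -- the prime sum
    have h1 : ∀ v, (wp s.re v : ℂ) * (ψ v.asIdeal * ph s.im (nm v)) = z v s := by
      intro v
      have h0 : (nm v : ℂ) ≠ 0 := by
        have := nm_pos' v
        exact_mod_cast this.ne'
      rw [hz]
      simp only
      conv_rhs => rw [← Complex.re_add_im s]
      rw [neg_add, Complex.cpow_add _ _ h0]
      have e1 : ((nm v : ℂ)) ^ (-(s.re : ℂ)) = ((wp s.re v : ℝ) : ℂ) := by
        rw [wp, Complex.ofReal_cpow (Nat.cast_nonneg _)]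
        push_cast
        rfl
      have e2 : ((nm v : ℂ)) ^ (-((s.im : ℂ) * Complex.I)) = ph s.im (nm v) := by
        rw [Complex.cpow_def_of_ne_zero h0, ph]
        congr 1
        have e3 : Complex.log (nm v : ℂ) = ((Real.log (nm v) : ℝ) : ℂ) := by
          rw [Complex.natCast_log]
        rw [e3]
        push_cast
        ring
      rw [e1, e2]
      ring
    have h2 : Summable fun v => z v s :=
      Summable.of_norm_bounded (summable_wp (K := K) hs) fun v => hzn v s hs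
    have h3 : SC (K := K) s.re (fun v => ψ v.asIdeal * ph s.im (nm v)) = ∑' v, z v s := by
      rw [SC]
      exact tsum_congr h1
    rw [h3, ← (hsum s hs).tsum_sub h2]
    have h4 : ∀ v, ‖-Complex.log (1 - z v s) - z v s‖ ≤ 1 / (pr v : ℝ) ^ 2 := by
      intro v
      have h5 := Complex.norm_log_one_add_sub_self_le (z := -z v s)
        (lt_of_le_of_lt (hneg v s hs) (by norm_num))
      have h6 : -Complex.log (1 - z v s) - z v s = -(Complex.log (1 + -z v s) - -z v s) := by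
        rw [← sub_eq_add_neg]
        ring
      rw [h6, norm_neg]
      rw [norm_neg] at h5
      have h7 := hzh v s hs
      have h8 : (1 - ‖z v s‖)⁻¹ ≤ 2 := by
        rw [inv_le_comm₀ (by linarith) (by norm_num)]
        linarith
      have h9 : ‖z v s‖ ^ 2 * (1 - ‖z v s‖)⁻¹ / 2 ≤ ‖z v s‖ ^ 2 := by
        have := mul_le_mul_of_nonneg_left h8 (sq_nonneg ‖z v s‖)
        linarith
      have h10 : ‖z v s‖ ≤ 1 / pr v := (hzn v s hs).trans (wp_le hs.le v)
      have h11 : ‖z v s‖ ^ 2 ≤ (1 / pr v) ^ 2 := pow_le_pow_left₀ (norm_nonneg _) h10 2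
      calc _ ≤ ‖z v s‖ ^ 2 := h5.trans h9
        _ ≤ (1 / pr v) ^ 2 := h11
        _ = _ := by ring
    have h5 : Summable fun v => ‖-Complex.log (1 - z v s) - z v s‖ :=
      Summable.of_nonneg_of_le (fun v => norm_nonneg _) h4 summable_pr_sq
    refine (norm_tsum_le_tsum_norm h5).trans ?_
    exact h5.tsum_le_tsum h4 summable_pr_sq

end Pool.Agent.Lib.MP_bf61d2_nt.Artin.Ray
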