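import Mathlib
import Pool.Agent.Lib.MP_bf61d2_nt.Trim.Artin.R.DefsR
import Pool.Agent.Lib.MP_bf61d2_nt.Trim.Artin.R.StmtsR
import Pool.Agent.Lib.MP_bf61d2_nt.Trim.Zeta.ClassSum
import Pool.Agent.Lib.MP_bf61d2_nt.Trim.Zeta.Cone
import Pool.Agent.Lib.MP_bf61d2_nt.Trim.Zeta.Dilation
import Pool.Agent.Lib.MP_bf61d2_nt.Trim.Zeta.Lattice
import Pool.Agent.Lib.MP_bf61d2_nt.Trim.Zeta.Lip
import Pool.Agent.Lib.MP_bf61d2_nt.Trim.Zeta.Nonvanish
import Pool.Agent.Lib.MP_bf61d2_nt.Trim.Zeta.Unfold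
import Pool.Agent.Lib.MP_bf61d2_nt.Trim.Zeta.UnitSum

set_option autoImplicit false

/-!
RAY, module UNF: the Dirichlet series of a function of the ideals as a finite sum of lattice sums.
-/

namespace NumberField
end NumberField

namespace Pool.Agent.Lib.MP_bf61d2_nt.Zeta
end Pool.Agent.Lib.MP_bf61d2_nt.Zeta

namespace Pool.Agent.Lib.MP_bf61d2_nt.Artin.Ray

namespace U88

open NumberField NumberField.mixedEmbedding NumberField.Units NumberField.InfinitePlace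

open NumberField.mixedEmbedding.fundamentalCone NumberField.Units.dirichletUnitTheorem

open IsDedekindDomain Module

open Pool.Agent.Lib.MP_bf61d2_nt.Zeta

open scoped Classical nonZeroDivisors

universe u

variable {K : Type u} [Field K] [NumberField K]

/-- The ideals of a class are the principal ideals divisible by `J`, divided by `J`. -/
noncomputable def eqvJ (J : (Ideal (𝓞 K))⁰) (C : ClassGroup (𝓞 K))
    (hJ : ClassGroup.mk0 J = C⁻¹) :
    {I : (Ideal (𝓞 K))⁰ // ClassGroup.mk0 I = C} ≃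
      {P : {I : (Ideal (𝓞 K))⁰ // Submodule.IsPrincipal (I : Ideal (𝓞 K))} //
        (J : Ideal (𝓞 K)) ∣ (P.1 : Ideal (𝓞 K))} where
  toFun I := ⟨⟨J * I.1, by
    have h := (ClassGroup.mk0_eq_one_iff (SetLike.coe_mem (J * I.1))).mp (by
      rw [show (⟨((J * I.1 : (Ideal (𝓞 K))⁰) : Ideal (𝓞 K)), SetLike.coe_mem (J * I.1)⟩ :
        (Ideal (𝓞 K))⁰) = J * I.1 from rfl, _root_.map_mul, hJ, I.2, inv_mul_cancel])
    exact h⟩, Dvd.intro _ rfl⟩
  invFun P := ⟨(Equiv.dvd J).symm ⟨P.1.1, (nonZeroDivisors_dvd_iff_dvd_coe).mpr P.2⟩, by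
    obtain ⟨Q, hQ⟩ : ∃ Q : (Ideal (𝓞 K))⁰, P.1.1 = J * Q :=
      (nonZeroDivisors_dvd_iff_dvd_coe).mpr P.2
    have h1 : (⟨P.1.1, (nonZeroDivisors_dvd_iff_dvd_coe).mpr P.2⟩ : {b // J ∣ b}) =
        Equiv.dvd J Q := Subtype.ext hQ
    rw [h1, Equiv.symm_apply_apply]
    have h2 := (ClassGroup.mk0_eq_one_iff (SetLike.coe_mem P.1.1)).mpr P.1.2
    have h3 : ClassGroup.mk0 P.1.1 = 1 := h2
    rw [hQ, _root_.map_mul, hJ, inv_mul_eq_one] at h3
    exact h3.symm⟩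
  left_inv I := by
    apply Subtype.ext
    show (Equiv.dvd J).symm _ = I.1
    rw [Equiv.symm_apply_eq]
    rfl
  right_inv P := by
    apply Subtype.ext
    apply Subtype.ext
    show J * (Equiv.dvd J).symm _ = P.1.1
    have := (Equiv.dvd J).apply_symm_apply ⟨P.1.1, (nonZeroDivisors_dvd_iff_dvd_coe).mpr P.2⟩
    exact congrArg Subtype.val this

/-- The points of the fundamental cone in the lattice of `J`. -/
noncomputable def eqvC (J : (Ideal (𝓞 K))⁰) (C : ClassGroup (𝓞 K))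
    (hJ : ClassGroup.mk0 J = C⁻¹) :
    idealSet K J ≃ {I : (Ideal (𝓞 K))⁰ // ClassGroup.mk0 I = C} × torsion K :=
  ((idealSetEquiv K J).trans
    ((Equiv.subtypeEquiv (p := fun a : integerSet K =>
        (preimageOfMemIntegerSet a : 𝓞 K) ∈ (J : Set (𝓞 K)))
      (q := fun P : {I : (Ideal (𝓞 K))⁰ // Submodule.IsPrincipal (I : Ideal (𝓞 K))} × torsion K =>
        (J : Ideal (𝓞 K)) ∣ (P.1.1 : Ideal (𝓞 K))) (integerSetEquiv K) (fun a => by
          rw [integerSetEquiv_apply_fst, Ideal.dvd_span_singleton]; rfl)).trans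
      ((Equiv.prodSubtypeFstEquivSubtypeProd (p := fun P :
        {I : (Ideal (𝓞 K))⁰ // Submodule.IsPrincipal (I : Ideal (𝓞 K))} =>
          (J : Ideal (𝓞 K)) ∣ (P.1 : Ideal (𝓞 K)))).trans
        (Equiv.prodCongrLeft fun _ => (eqvJ J C hJ).symm))))

lemma eqvC_spec (J : (Ideal (𝓞 K))⁰) (C : ClassGroup (𝓞 K)) (hJ : ClassGroup.mk0 J = C⁻¹)
    (β : idealSet K J) (α : 𝓞 K) (hα : mixedEmbedding K (α : K) = (β : mixedSpace K)) :
    Ideal.span {α} = (J : Ideal (𝓞 K)) * ((eqvC J C hJ β).1.1 : Ideal (𝓞 K)) := by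
  set Q := (eqvC J C hJ β).1 with hQ
  have h1 : (((eqvJ J C hJ Q).1.1 : (Ideal (𝓞 K))⁰) : Ideal (𝓞 K)) =
      (J : Ideal (𝓞 K)) * (Q.1 : Ideal (𝓞 K)) := rfl
  rw [← h1, hQ]
  have h2 : eqvJ J C hJ (eqvC J C hJ β).1 =
      ⟨(integerSetEquiv K (idealSetEquiv K J β).1).1, (by
        rw [integerSetEquiv_apply_fst, Ideal.dvd_span_singleton]
        exact (idealSetEquiv K J β).2)⟩ := by
    show eqvJ J C hJ ((eqvJ J C hJ).symm _) = _
    rw [Equiv.apply_symm_apply]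
    rfl
  rw [h2]
  show _ = (((integerSetEquiv K (idealSetEquiv K J β).1).1 : (Ideal (𝓞 K))⁰) : Ideal (𝓞 K))
  rw [integerSetEquiv_apply_fst]
  congr 2
  apply RingOfIntegers.coe_injective
  apply mixedEmbedding_injective K
  rw [hα]
  have h3 := mixedEmbedding_preimageOfMemIntegerSet (idealSetEquiv K J β).1
  rw [h3, idealSetEquiv_apply]

/-- The weight of a lattice point. -/
lemma exists_ideal {J : (Ideal (𝓞 K))⁰} {ι : Type*} [Fintype ι] {b : Basis ι ℝ (mixedSpace K)}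
    (hb : IsBasisOf J b) {a : ι → ℤ} (ha : a ≠ 0) : ∃ (α : 𝓞 K) (I : Ideal (𝓞 K)), α ≠ 0 ∧
      mixedEmbedding K (α : K) = pt b a ∧ Ideal.span {α} = (J : Ideal (𝓞 K)) * I := by
  obtain ⟨α, h1, hα⟩ := (hb (pt b a)).mp ⟨a, rfl⟩
  have h2 : (J : Ideal (𝓞 K)) ∣ Ideal.span {α} := by
    rw [Ideal.dvd_span_singleton]
    exact h1
  obtain ⟨I, hI⟩ := h2
  refine ⟨α, I, ?_, hα, hI⟩
  rintro rfl
  apply pt_ne_zero b ha
  rw [← hα]
  simp

/-- Unfolding with a weight. -/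
theorem unfold_F {F : Ideal (𝓞 K) → ℂ} (hF : ∀ I, ‖F I‖ ≤ 1) {J : (Ideal (𝓞 K))⁰}
    {C : ClassGroup (𝓞 K)} (hJ : ClassGroup.mk0 J = C⁻¹) {ι : Type*} [Fintype ι]
    {b : Basis ι ℝ (mixedSpace K)} (hb : IsBasisOf J b) {W : (ι → ℤ) → ℂ}
    (hW : ∀ (a : ι → ℤ) (α : 𝓞 K) (I : Ideal (𝓞 K)), α ≠ 0 →
      mixedEmbedding K (α : K) = pt b a → Ideal.span {α} = (J : Ideal (𝓞 K)) * I → W a = F I)
    {s : ℂ} (hs : 1 < s.re) :
    ∑' a : ι → ℤ, W a * hh s (pt b a) = ∑' β : idealSet K J,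
      F ((eqvC J C hJ β).1.1 : Ideal (𝓞 K)) *
        Complex.exp (-(s * (Real.log (mixedEmbedding.norm (β : mixedSpace K)) : ℂ))) := by
  have hsum : Summable fun a : ι → ℤ => W a * hh s (pt b a) := by
    refine Summable.of_norm_bounded
      (summable_hh b (fun a ha => one_le_norm_pt hb ha) hs).norm fun a => ?_
    rcases eq_or_ne a 0 with rfl | ha
    · rw [pt_zero, hh_zero, mul_zero]
    · obtain ⟨α, I, h0, h1, h2⟩ := exists_ideal hb ha
      rw [norm_mul, hW a α I h0 h1 h2]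
      exact mul_le_of_le_one_left (norm_nonneg _) (hF I)
  choose g' hg' using exists_pt_eq (K := K) hb
  have hnorm : ∀ β : idealSet K J, mixedEmbedding.norm (β : mixedSpace K) ≠ 0 := fun β =>
    (norm_pos_of_mem (mem_idealSet.mp β.2).1).ne'
  have hinj : Function.Injective g' := by
    intro p p' h
    have h1 : fu p.2 • (p.1 : mixedSpace K) = fu p'.2 • (p'.1 : mixedSpace K) := by
      rw [← hg', ← hg', h]
    obtain ⟨h2, h3⟩ := fu_smul_inj (mem_idealSet.mp p.1.2).1 (mem_idealSet.mp p'.1.2).1 h1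
    exact Prod.ext (Subtype.ext h3) h2
  have hrange : Function.support (fun a => W a * hh s (pt b a)) ⊆ Set.range g' := by
    intro a ha
    have ha0 : a ≠ 0 := by
      rintro rfl
      apply ha
      simp only
      rw [pt_zero, hh_zero, mul_zero]
    obtain ⟨k, hk⟩ := exists_mem_idealSet hb ha0
    refine ⟨(⟨_, hk⟩, -k), pt_injective b ?_⟩
    rw [hg']
    simp only [fu_neg, inv_smul_smul]
  have hwt : ∀ p : idealSet K J × (Fin (rank K) → ℤ),
      W (g' p) = F ((eqvC J C hJ p.1).1.1 : Ideal (𝓞 K)) := by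
    intro p
    obtain ⟨-, α, hα, h⟩ := mem_idealSet.mp p.1.2
    have h1 := eqvC_spec J C hJ p.1 α h
    have hα0 : α ≠ 0 := by
      rintro rfl
      apply hnorm p.1
      rw [← h]
      simp
    refine hW (g' p) ((fu p.2 : 𝓞 K) * α) _ (mul_ne_zero (Units.ne_zero _) hα0) ?_ ?_
    · rw [hg', ← h, unitSMul_smul, ← map_mul]
      simp
    · rw [← h1]
      rw [Ideal.span_singleton_mul_left_unit (Units.isUnit _)]
  have hval : ∀ p, W (g' p) * hh s (pt b (g' p)) =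
      ((∏ i, hat (crd (p.1 : mixedSpace K) i + p.2 i) : ℝ) : ℂ) *
      (F ((eqvC J C hJ p.1).1.1 : Ideal (𝓞 K)) *
        Complex.exp (-(s * (Real.log (mixedEmbedding.norm (p.1 : mixedSpace K)) : ℂ)))) := by
    intro p
    rw [hwt, hg', hh_fu_smul s p.2 (hnorm p.1)]
    ring
  have hsum2 : Summable fun p => W (g' p) * hh s (pt b (g' p)) := hsum.comp_injective hinj
  have h1 : ∑' a : ι → ℤ, W a * hh s (pt b a) =
      ∑' p, W (g' p) * hh s (pt b (g' p)) := (hinj.tsum_eq hrange).symm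
  have h2 : ∀ β : idealSet K J, ∑' k, W (g' (β, k)) * hh s (pt b (g' (β, k))) =
      F ((eqvC J C hJ β).1.1 : Ideal (𝓞 K)) *
        Complex.exp (-(s * (Real.log (mixedEmbedding.norm (β : mixedSpace K)) : ℂ))) := by
    intro β
    simp only [hval]
    rw [tsum_mul_right, tsum_prod_hat, one_mul]
  rw [h1, hsum2.tsum_prod]
  exact tsum_congr h2

lemma summable_F {F : Ideal (𝓞 K) → ℂ} (hF : ∀ I, ‖F I‖ ≤ 1) {s : ℂ} (hs : 1 < s.re) :
    Summable fun I : Ideal (𝓞 K) => F I * (Ideal.absNorm I : ℂ) ^ (-s) := by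
  refine Summable.of_norm_bounded (summable_ideals_complex (K := K) hs).norm fun I => ?_
  rw [norm_mul]
  exact mul_le_of_le_one_left (norm_nonneg _) (hF I)

lemma cpow_eq (s : ℂ) (I : (Ideal (𝓞 K))⁰) :
    (Ideal.absNorm (I : Ideal (𝓞 K)) : ℂ) ^ (-s) = en s (Ideal.absNorm (I : Ideal (𝓞 K))) := by
  have h0 : (Ideal.absNorm (I : Ideal (𝓞 K)) : ℂ) ≠ 0 :=
    Nat.cast_ne_zero.mpr (Ideal.absNorm_ne_zero_of_nonZeroDivisors I)
  rw [Complex.cpow_def_of_ne_zero h0, en, ← Complex.natCast_log]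
  congr 1
  ring

lemma summable_F0 {F : Ideal (𝓞 K) → ℂ} (hF : ∀ I, ‖F I‖ ≤ 1) {s : ℂ} (hs : 1 < s.re) :
    Summable fun I : (Ideal (𝓞 K))⁰ => F I * en s (Ideal.absNorm (I : Ideal (𝓞 K))) := by
  have h := (summable_F hF hs).comp_injective
    (i := fun I : (Ideal (𝓞 K))⁰ => (I : Ideal (𝓞 K))) Subtype.val_injective
  refine h.congr fun I => ?_
  rw [Function.comp_apply, cpow_eq]

/-- The sum over a class. -/
lemma class_F {F : Ideal (𝓞 K) → ℂ} (hF : ∀ I, ‖F I‖ ≤ 1) {J : (Ideal (𝓞 K))⁰}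
    {C : ClassGroup (𝓞 K)} (hJ : ClassGroup.mk0 J = C⁻¹) {s : ℂ} (hs : 1 < s.re) :
    ∑' β : idealSet K J, F ((eqvC J C hJ β).1.1 : Ideal (𝓞 K)) *
        Complex.exp (-(s * (Real.log (mixedEmbedding.norm (β : mixedSpace K)) : ℂ))) =
      (torsionOrder K * en s (Ideal.absNorm (J : Ideal (𝓞 K)))) *
        ∑' I : {I : (Ideal (𝓞 K))⁰ // ClassGroup.mk0 I = C},
          F (I.1 : Ideal (𝓞 K)) * en s (Ideal.absNorm (I.1 : Ideal (𝓞 K))) := by
  have h0 : Ideal.absNorm (J : Ideal (𝓞 K)) ≠ 0 := Ideal.absNorm_ne_zero_of_nonZeroDivisors J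
  have hterm : ∀ β : idealSet K J, F ((eqvC J C hJ β).1.1 : Ideal (𝓞 K)) *
        Complex.exp (-(s * (Real.log (mixedEmbedding.norm (β : mixedSpace K)) : ℂ))) =
      (fun q : {I : (Ideal (𝓞 K))⁰ // ClassGroup.mk0 I = C} × torsion K =>
        en s (Ideal.absNorm (J : Ideal (𝓞 K))) * (F (q.1.1 : Ideal (𝓞 K)) *
          en s (Ideal.absNorm (q.1.1 : Ideal (𝓞 K))))) (eqvC J C hJ β) := by
    intro β
    obtain ⟨-, α, hα, h⟩ := mem_idealSet.mp β.2
    have h1 := eqvC_spec J C hJ β α h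
    have h2 : mixedEmbedding.norm (β : mixedSpace K) =
        ((Ideal.absNorm (J : Ideal (𝓞 K)) *
          Ideal.absNorm ((eqvC J C hJ β).1.1 : Ideal (𝓞 K)) : ℕ) : ℝ) := by
      rw [← map_mul Ideal.absNorm, ← h1, Ideal.absNorm_span_singleton, ← h, norm_eq_norm,
        ← Algebra.coe_norm_int, Nat.cast_natAbs]
      push_cast
      rfl
    have h3 : Ideal.absNorm ((eqvC J C hJ β).1.1 : Ideal (𝓞 K)) ≠ 0 :=
      Ideal.absNorm_ne_zero_of_nonZeroDivisors _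
    show _ = en s (Ideal.absNorm (J : Ideal (𝓞 K))) * (F ((eqvC J C hJ β).1.1 : Ideal (𝓞 K)) *
          en s (Ideal.absNorm ((eqvC J C hJ β).1.1 : Ideal (𝓞 K))))
    rw [h2]
    have h4 := en_mul s h0 h3
    rw [en] at h4
    rw [h4]
    ring
  rw [tsum_congr hterm, (eqvC J C hJ).tsum_eq
    (fun q : {I : (Ideal (𝓞 K))⁰ // ClassGroup.mk0 I = C} × torsion K =>
        en s (Ideal.absNorm (J : Ideal (𝓞 K))) * (F (q.1.1 : Ideal (𝓞 K)) *
          en s (Ideal.absNorm (q.1.1 : Ideal (𝓞 K)))))]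
  have hsm : Summable fun I : {I : (Ideal (𝓞 K))⁰ // ClassGroup.mk0 I = C} =>
      F (I.1 : Ideal (𝓞 K)) * en s (Ideal.absNorm (I.1 : Ideal (𝓞 K))) :=
    (summable_F0 hF hs).comp_injective Subtype.val_injective
  have hfin : Fintype (torsion K) := Fintype.ofFinite _
  have hsm2 : Summable fun q : {I : (Ideal (𝓞 K))⁰ // ClassGroup.mk0 I = C} × torsion K =>
        en s (Ideal.absNorm (J : Ideal (𝓞 K))) * (F (q.1.1 : Ideal (𝓞 K)) *
          en s (Ideal.absNorm (q.1.1 : Ideal (𝓞 K)))) := by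
    refine Summable.mul_left _ ?_
    have h5 := (Equiv.prodComm (torsion K)
      {I : (Ideal (𝓞 K))⁰ // ClassGroup.mk0 I = C}).summable_iff (f := fun q :
        {I : (Ideal (𝓞 K))⁰ // ClassGroup.mk0 I = C} × torsion K => (F (q.1.1 : Ideal (𝓞 K)) *
          en s (Ideal.absNorm (q.1.1 : Ideal (𝓞 K)))))
    rw [← h5]
    refine Summable.of_norm ?_
    rw [summable_prod_of_nonneg (fun _ => norm_nonneg _)]
    refine ⟨fun _ => hsm.norm, (hasSum_fintype _).summable⟩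
  rw [hsm2.tsum_prod]
  have h6 : ∀ I : {I : (Ideal (𝓞 K))⁰ // ClassGroup.mk0 I = C}, ∑' _t : torsion K,
      en s (Ideal.absNorm (J : Ideal (𝓞 K))) * (F (I.1 : Ideal (𝓞 K)) *
          en s (Ideal.absNorm (I.1 : Ideal (𝓞 K)))) =
      (torsionOrder K * en s (Ideal.absNorm (J : Ideal (𝓞 K)))) *
        (F (I.1 : Ideal (𝓞 K)) * en s (Ideal.absNorm (I.1 : Ideal (𝓞 K)))) := by
    intro I
    rw [tsum_const, nsmul_eq_mul, torsionOrder]
    ring
  simp only [h6]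
  rw [tsum_mul_left]

/-- The sum over all ideals. -/
lemma total_F {F : Ideal (𝓞 K) → ℂ} (hF : ∀ I, ‖F I‖ ≤ 1) {s : ℂ} (hs : 1 < s.re) :
    LI F s = ∑ C : ClassGroup (𝓞 K), ∑' I : {I : (Ideal (𝓞 K))⁰ // ClassGroup.mk0 I = C},
      F (I.1 : Ideal (𝓞 K)) * en s (Ideal.absNorm (I.1 : Ideal (𝓞 K))) := by
  have hs0 : s ≠ 0 := by rintro rfl; simp at hs; linarith
  have h1 : LI F s = ∑' I : (Ideal (𝓞 K))⁰, F I * en s (Ideal.absNorm (I : Ideal (𝓞 K))) := by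
    rw [LI]
    have h2 : Function.support (fun I : Ideal (𝓞 K) => F I * (Ideal.absNorm I : ℂ) ^ (-s)) ⊆
        Set.range (fun I : (Ideal (𝓞 K))⁰ => (I : Ideal (𝓞 K))) := by
      intro I hI
      have h3 : I ≠ 0 := by
        rintro rfl
        apply hI
        simp only
        rw [show Ideal.absNorm (0 : Ideal (𝓞 K)) = 0 from map_zero _, Nat.cast_zero,
          Complex.zero_cpow (neg_ne_zero.mpr hs0), mul_zero]
      exact ⟨⟨I, mem_nonZeroDivisors_of_ne_zero h3⟩, rfl⟩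
    rw [← (Subtype.val_injective :
      Function.Injective (fun I : (Ideal (𝓞 K))⁰ => (I : Ideal (𝓞 K)))).tsum_eq h2]
    refine tsum_congr fun I => ?_
    rw [cpow_eq]
  rw [h1, ← (Equiv.sigmaFiberEquiv (fun I : (Ideal (𝓞 K))⁰ => ClassGroup.mk0 I)).tsum_eq]
  have hsm := (Equiv.sigmaFiberEquiv (fun I : (Ideal (𝓞 K))⁰ => ClassGroup.mk0 I)).summable_iff.mpr
    (summable_F0 hF hs)
  rw [Summable.tsum_sigma (f := fun c => F (((Equiv.sigmaFiberEquiv
    (fun I : (Ideal (𝓞 K))⁰ => ClassGroup.mk0 I)) c : (Ideal (𝓞 K))⁰) : Ideal (𝓞 K)) *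
      en s (Ideal.absNorm (((Equiv.sigmaFiberEquiv
    (fun I : (Ideal (𝓞 K))⁰ => ClassGroup.mk0 I)) c : (Ideal (𝓞 K))⁰) : Ideal (𝓞 K)))) hsm,
    tsum_fintype]
  rfl

end U88

open NumberField NumberField.mixedEmbedding NumberField.Units IsDedekindDomain Module

open Pool.Agent.Lib.MP_bf61d2_nt.Zeta

/-- UNF -/
theorem stUNF_of (K : Type*) [Field K] [NumberField K] : StUNF K := by
  intro F hF J hJ ι _ b hb W hW s hs
  rw [U88.total_F hF hs]
  refine Finset.sum_congr rfl fun C _ => ?_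
  rw [U88.unfold_F hF (hJ C) (hb C) (hW C) hs, U88.class_F hF (hJ C) hs]
  have h1 : (torsionOrder K : ℂ) * en s (Ideal.absNorm (J C : Ideal (𝓞 K))) ≠ 0 :=
    mul_ne_zero (Nat.cast_ne_zero.mpr (torsionOrder_ne_zero K)) (en_ne_zero _ _)
  rw [← mul_assoc, inv_mul_cancel₀ h1, one_mul]

end Pool.Agent.Lib.MP_bf61d2_nt.Artin.Ray
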