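import Mathlib
import Pool.Agent.Lib.MP_bf61d2_nt.Trim.Artin.R.DefsR
import Pool.Agent.Lib.MP_bf61d2_nt.Trim.Artin.T.BESX84
import Pool.Agent.Lib.MP_bf61d2_nt.Trim.Artin.T.DefsT84
import Pool.Agent.Lib.MP_bf61d2_nt.Trim.Artin.T.MAINXD84
import Pool.Agent.Lib.MP_bf61d2_nt.Trim.Artin.T.PAGE84
import Pool.Agent.Lib.MP_bf61d2_nt.Trim.Artin.Z69
import Pool.Agent.Lib.MP_bf61d2_nt.Trim.Places

set_option autoImplicit false

/-!
RAY (MP_bf61d2_nt): edge repulsion for the twists of the quadratic twists `E_d` by all ray class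
characters.
-/

namespace NumberField
end NumberField

namespace Pool.Agent.Lib.MP_bf61d2_nt.Artin.Ray

open NumberField IsDedekindDomain

universe u

variable {K : Type u} [Field K] [NumberField K]

/-! ### The quadratic character as a ray class character -/

/-- A Dirichlet character of the norm. -/
noncomputable def nch {m : ℕ} (hm : m ≠ 1) (χ : DirichletCharacter ℂ m) :
    Ideal (𝓞 K) →*₀ ℂ where
  toFun I := χ (Ideal.absNorm I : ℕ)
  map_zero' := by
    have h0 : Ideal.absNorm (0 : Ideal (𝓞 K)) = 0 := map_zero _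
    rw [h0, Nat.cast_zero]
    apply MulChar.map_nonunit
    intro h
    have h2 : IsUnit ((0 : ℕ) : ZMod m) := by rwa [Nat.cast_zero]
    rw [ZMod.isUnit_iff_coprime, Nat.coprime_zero_left] at h2
    exact hm h2
  map_one' := by
    have h1 : Ideal.absNorm (1 : Ideal (𝓞 K)) = 1 := map_one _
    rw [h1, Nat.cast_one, map_one]
  map_mul' I I' := by
    rw [map_mul, Nat.cast_mul, map_mul]

lemma nch_apply {m : ℕ} (hm : m ≠ 1) (χ : DirichletCharacter ℂ m) (I : Ideal (𝓞 K)) :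
    nch hm χ I = χ (Ideal.absNorm I : ℕ) := rfl

lemma span_natCast_le {m : ℕ} (v : HeightOneSpectrum (𝓞 K)) :
    Ideal.span {(m : 𝓞 K)} ≤ v.asIdeal ↔ (m : 𝓞 K) ∈ v.asIdeal :=
  Ideal.span_singleton_le_iff_mem _

lemma coprime_iff {m : ℕ} (v : HeightOneSpectrum (𝓞 K)) :
    Nat.Coprime (nm v) m ↔ ¬ Ideal.span {(m : 𝓞 K)} ≤ v.asIdeal := by
  rw [span_natCast_le]
  obtain ⟨f, hf, h⟩ := nm_eq v
  constructor
  · intro hc hm
    rw [h, Nat.coprime_pow_left_iff hf, Nat.Prime.coprime_iff_not_dvd (pr_prime v)] at hc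
    apply hc
    have h1 : ((m : ℤ) : 𝓞 K) ∈ v.asIdeal := by exact_mod_cast hm
    rw [Int.cast_mem_ideal_iff] at h1
    exact_mod_cast h1
  · intro hm
    rw [h]
    apply Nat.Coprime.pow_left
    rw [Nat.Prime.coprime_iff_not_dvd (pr_prime v)]
    rintro ⟨c, rfl⟩
    apply hm
    push_cast
    exact v.asIdeal.mul_mem_right _ (pr_mem v)

lemma isRay_nch {m : ℕ} [NeZero m] (hm : m ≠ 1) (χ : DirichletCharacter ℂ m) (he : χ.Even) :
    IsRay (Ideal.span {(m : 𝓞 K)}) (nch (K := K) hm χ) := by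
  constructor
  · intro γ hγ h1 _
    rw [nch_apply, Ideal.absNorm_span_singleton]
    rw [Ideal.mem_span_singleton] at h1
    obtain ⟨c, hc⟩ := h1
    have h2 := Z69.norm_congr (α := γ) (β := 1) (γ := c) (M := m) hc
    rw [map_one] at h2
    have h3 : ((Algebra.norm ℤ γ : ℤ) : ZMod m) = 1 := by
      have := (ZMod.intCast_zmod_eq_zero_iff_dvd _ _).mpr h2
      push_cast at this
      exact sub_eq_zero.mp this
    have h4 := Z69.even_natAbs (m := m) (fun x => χ x)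
      (fun x => DirichletCharacter.Even.eval_neg χ x he) (Algebra.norm ℤ γ)
    rw [h4, h3, map_one]
  · intro v
    rw [nch_apply]
    have h1 : χ ((nm v : ℕ) : ZMod m) = 0 ↔ ¬ Nat.Coprime (nm v) m := by
      constructor
      · intro h hc
        exact chi_coprime_ne χ hc h
      · intro h
        apply MulChar.map_nonunit
        rwa [ZMod.isUnit_iff_coprime]
    have h2 : Ideal.absNorm v.asIdeal = nm v := rfl
    rw [h2, h1, coprime_iff, not_not]

lemma mul_le_iff (I J : Ideal (𝓞 K)) (v : HeightOneSpectrum (𝓞 K)) :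
    I * J ≤ v.asIdeal ↔ I ≤ v.asIdeal ∨ J ≤ v.asIdeal :=
  v.isPrime.mul_le

lemma span_le_iff {d d' : ℕ} (v : HeightOneSpectrum (𝓞 K)) :
    (Ideal.span {((4 * d : ℕ) : 𝓞 K)} ≤ v.asIdeal ∨ Ideal.span {((4 * d' : ℕ) : 𝓞 K)} ≤ v.asIdeal) ↔
      Ideal.span {((2 * d * d' : ℕ) : 𝓞 K)} ≤ v.asIdeal := by
  have hp := v.isPrime
  simp only [span_natCast_le]
  have h4 : ((4 : ℕ) : 𝓞 K) = ((2 : ℕ) : 𝓞 K) * ((2 : ℕ) : 𝓞 K) := by
    push_cast; norm_num
  rw [Nat.cast_mul, Nat.cast_mul, Nat.cast_mul, Nat.cast_mul, h4]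
  simp only [hp.mul_mem_iff_mem_or_mem]
  tauto

lemma jac_eq {d d' : ℕ} {v : HeightOneSpectrum (𝓞 K)}
    (h : ¬ Ideal.span {((2 * d * d' : ℕ) : 𝓞 K)} ≤ v.asIdeal) (e : ℕ) :
    (js e (nm v) : ℂ) = (jacobiSym e (Ideal.absNorm v.asIdeal) : ℂ) := by
  rw [← coprime_iff, mul_assoc, Nat.coprime_mul_iff_right] at h
  rw [js_odd h.1]
  rfl

lemma lq_pow {Q : ℝ} (hQ : 20 ≤ Q) (N : ℕ) : 20 ≤ (4 * Q) ^ (N + 1) ∧
    Q ≤ (4 * Q) ^ (N + 1) ∧ lq ((4 * Q) ^ (N + 1)) ≤ (2 * N + 3) * lq Q := by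
  obtain ⟨h1, h2, -⟩ := Q_facts hQ
  have hQ0 : 0 < Q := by linarith
  have h4Q : 4 * Q ≤ (4 * Q) ^ (N + 1) := by
    rw [pow_succ]
    exact le_mul_of_one_le_left (by linarith) (one_le_pow₀ (by linarith))
  have h3 : Real.log ((4 * Q) ^ (N + 1)) ≤ (2 * N + 2) * Real.log Q := by
    rw [Real.log_pow]
    have h4 : Real.log (4 * Q) ≤ 2 * Real.log Q := by
      have h5 := Real.log_le_log (by positivity) (show 4 * Q ≤ Q ^ 2 by nlinarith)
      rwa [Real.log_pow] at h5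
    push_cast
    have h6 : (0 : ℝ) ≤ (N : ℝ) + 1 := by positivity
    nlinarith [mul_le_mul_of_nonneg_left h4 h6]
  refine ⟨by linarith, by linarith, ?_⟩
  have h0 : 0 < Real.log ((4 * Q) ^ (N + 1)) := Real.log_pos (by linarith)
  have h7 := Real.log_le_log h0 h3
  rw [Real.log_mul (by positivity) (by linarith)] at h7
  have h8 := Real.log_le_sub_one_of_pos (show (0 : ℝ) < 2 * N + 2 by positivity)
  have h9 : lq Q = Real.log (Real.log Q) := rfl
  have h10 : (2 * N + 1 : ℝ) ≤ (2 * N + 1) * lq Q := le_mul_of_one_le_right (by positivity) h2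
  rw [lq]
  linarith

end Pool.Agent.Lib.MP_bf61d2_nt.Artin.Ray
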